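import Mathlib

/-!
# Equivariant singular homology with coefficients

For a group `G` acting on a space `X`, a ring `A` and a homomorphism `u : G →* A` (so that `A` is a
right `ℤG`-module) we define the complex `A ⊗_{ℤG} C_*(X)`, `C_*(X)` the singular chain complex of
`X`, and its homology.
-/

namespace Pool.Agent.H496R3.ZS

open Topology

/-- Singular `k`-simplices of `X`. -/
abbrev Simp (X : Type) [TopologicalSpace X] (k : ℕ) : Type := C(stdSimplex ℝ (Fin (k + 1)), X)

/-- The `i`-th face of a singular `(k+1)`-simplex. -/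
noncomputable def face {X : Type} [TopologicalSpace X] {k : ℕ} (i : Fin (k + 2))
    (σ : Simp X (k + 1)) : Simp X k :=
  σ.comp ⟨stdSimplex.map (Fin.succAbove i), stdSimplex.continuous_map _⟩

section

variable {G : Type} [Group G] {A : Type} [Ring A] (u : G →* A)
  (X : Type) [TopologicalSpace X] [MulAction G X] [ContinuousConstSMul G X]

/-- The relations `a ⊗ g σ = a g ⊗ σ` defining `A ⊗_{ℤG} C_k(X)` as a quotient of
`A ⊗_ℤ C_k(X)`; here `a g = a * u g`. -/
noncomputable def rel (k : ℕ) : AddSubgroup (Simp X k →₀ A) :=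
  AddSubgroup.closure {c | ∃ (g : G) (σ : Simp X k) (a : A),
    c = Finsupp.single (g • σ) a - Finsupp.single σ (a * u g)}

/-- The chain group `A ⊗_{ℤG} C_k(X)`. -/
abbrev Chain (k : ℕ) : Type := (Simp X k →₀ A) ⧸ rel u X k

/-- The boundary map `∂ = ∑ (-1)^i ∂_i` before passing to the quotient. -/
noncomputable def bdryAux (k : ℕ) : (Simp X (k + 1) →₀ A) →+ (Simp X k →₀ A) :=
  ∑ i : Fin (k + 2), ((-1 : ℤ) ^ (i : ℕ)) • Finsupp.mapDomain.addMonoidHom (face i)

lemma bdryAux_single (k : ℕ) (σ : Simp X (k + 1)) (a : A) :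
    bdryAux X k (Finsupp.single σ a) =
      ∑ i : Fin (k + 2), ((-1 : ℤ) ^ (i : ℕ)) • Finsupp.single (face i σ) a := by
  simp only [bdryAux, AddMonoidHom.finsetSum_apply, AddMonoidHom.smul_apply,
    Finsupp.mapDomain.addMonoidHom_apply, Finsupp.mapDomain_single]

lemma rel_le (k : ℕ) : rel u X (k + 1) ≤ (rel u X k).comap (bdryAux X k) := by
  rw [rel, AddSubgroup.closure_le]
  rintro c ⟨g, σ, a, rfl⟩
  rw [SetLike.mem_coe, AddSubgroup.mem_comap, map_sub, bdryAux_single, bdryAux_single,
    ← Finset.sum_sub_distrib]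
  refine AddSubgroup.sum_mem _ fun i _ => ?_
  rw [← zsmul_sub]
  have h : Finsupp.single (face i (g • σ)) a - Finsupp.single (face i σ) (a * u g) ∈
      rel u X k := AddSubgroup.subset_closure ⟨g, face i σ, a, rfl⟩
  exact AddSubgroup.zsmul_mem _ h _

/-- The boundary map `A ⊗_{ℤG} C_{k+1}(X) → A ⊗_{ℤG} C_k(X)`. -/
noncomputable def bdry (k : ℕ) : Chain u X (k + 1) →+ Chain u X k :=
  QuotientAddGroup.map _ _ (bdryAux X k) (rel_le u X k)

/-- The cycles: everything in degree `0`, the kernel of the boundary map in positive degree. -/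
noncomputable def cycles : (k : ℕ) → AddSubgroup (Chain u X k)
  | 0 => ⊤
  | k + 1 => (bdry u X k).ker

/-- The homology group `H_k(A ⊗_{ℤG} C_*(X))`: cycles modulo boundaries. -/
def Homol (k : ℕ) : Type :=
  cycles u X k ⧸ ((bdry u X k).range.addSubgroupOf (cycles u X k))

end

section Evaluation

variable {G : Type} [Group G] {A : Type} [Ring A] {u : G →* A}
  {X : Type} [TopologicalSpace X] [MulAction G X] [ContinuousConstSMul G X]

lemma mem_range_of_subsingleton {k : ℕ} (h : Subsingleton (Homol u X k)) {c : Chain u X k}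
    (hc : c ∈ cycles u X k) : ∃ e, bdry u X k e = c := by
  have h1 : (QuotientAddGroup.mk (0 : cycles u X k) :
      cycles u X k ⧸ ((bdry u X k).range.addSubgroupOf (cycles u X k))) =
      QuotientAddGroup.mk (⟨c, hc⟩ : cycles u X k) := h.elim _ _
  rw [QuotientAddGroup.eq, neg_zero, zero_add, AddSubgroup.mem_addSubgroupOf] at h1
  exact h1

/-- class of a simplex -/
noncomputable def cls (k : ℕ) (σ : Simp X k) (a : A) : Chain u X k :=
  QuotientAddGroup.mk (Finsupp.single σ a)

lemma cls_smul (k : ℕ) (g : G) (σ : Simp X k) (a : A) :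
    (cls k (g • σ) a : Chain u X k) = cls k σ (a * u g) := by
  rw [cls, cls, QuotientAddGroup.eq, ← AddSubgroup.neg_mem_iff]
  refine AddSubgroup.subset_closure ⟨g, σ, a, ?_⟩
  abel

lemma bdry_cls (k : ℕ) (σ : Simp X (k + 1)) (a : A) :
    bdry u X k (cls (k + 1) σ a) =
      ∑ i : Fin (k + 2), ((-1 : ℤ) ^ (i : ℕ)) • cls k (face i σ) a := by
  have h : bdry u X k (cls (k + 1) σ a) =
      QuotientAddGroup.mk (bdryAux X k (Finsupp.single σ a)) := rfl
  rw [h, bdryAux_single]
  have h2 : ∀ c : Simp X k →₀ A, (QuotientAddGroup.mk c : Chain u X k) =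
      QuotientAddGroup.mk' (rel u X k) c := fun _ => rfl
  rw [h2, map_sum]
  refine Finset.sum_congr rfl fun i _ => ?_
  rw [map_zsmul]
  rfl

lemma chain_induction {k : ℕ} {P : Chain u X k → Prop} (h0 : P 0)
    (hadd : ∀ c d, P c → P d → P (c + d)) (hcls : ∀ σ a, P (cls k σ a)) (c : Chain u X k) :
    P c := by
  induction c using QuotientAddGroup.induction_on with
  | H c =>
    induction c using Finsupp.induction_linear with
    | zero => exact h0
    | add f g hf hg => exact hadd _ _ hf hg
    | single σ a => exact hcls σ a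

/-- left multiplication on chains -/
noncomputable def lmul (k : ℕ) (a : A) : Chain u X k →+ Chain u X k :=
  QuotientAddGroup.map _ _ (Finsupp.mapRange.addMonoidHom (AddMonoidHom.mulLeft a)) (by
    rw [rel, AddSubgroup.closure_le]
    rintro c ⟨g, σ, b, rfl⟩
    rw [SetLike.mem_coe, AddSubgroup.mem_comap, map_sub]
    refine AddSubgroup.subset_closure ⟨g, σ, a * b, ?_⟩
    rw [Finsupp.mapRange.addMonoidHom_apply, Finsupp.mapRange.addMonoidHom_apply,
      Finsupp.mapRange_single, Finsupp.mapRange_single]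
    simp only [AddMonoidHom.coe_mulLeft, mul_assoc])

lemma lmul_cls (k : ℕ) (a b : A) (σ : Simp X k) :
    lmul k a (cls k σ b : Chain u X k) = cls k σ (a * b) := by
  have h : lmul k a (cls k σ b : Chain u X k) =
      QuotientAddGroup.mk (Finsupp.mapRange.addMonoidHom (AddMonoidHom.mulLeft a)
        (Finsupp.single σ b)) := rfl
  rw [h]
  simp [cls]

lemma bdry_lmul (k : ℕ) (a : A) (c : Chain u X (k + 1)) :
    bdry u X k (lmul (k + 1) a c) = lmul k a (bdry u X k c) := by
  induction c using chain_induction with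
  | h0 => simp
  | hadd c d hc hd => simp [hc, hd]
  | hcls σ b =>
    rw [lmul_cls, bdry_cls, bdry_cls, map_sum]
    refine Finset.sum_congr rfl fun i _ => ?_
    rw [map_zsmul, lmul_cls]

variable {N : Type} [AddCommGroup N]

/-- evaluation of `1`-cochains given by the differences of a function on points -/
noncomputable def evAux (θ : A →+ (N →+ N)) (D : Simp X 1 → N) : (Simp X 1 →₀ A) →+ N :=
  Finsupp.liftAddHom (fun σ => (AddMonoidHom.eval (D σ)).comp θ)

lemma evAux_single (θ : A →+ (N →+ N)) (D : Simp X 1 → N) (σ : Simp X 1) (a : A) :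
    evAux θ D (Finsupp.single σ a) = θ a (D σ) := by
  simp [evAux]

/-- evaluation on chains -/
noncomputable def ev (u : G →* A) (θ : A →+ (N →+ N)) (ρ : G → (N →+ N))
    (hθr : ∀ a g n, θ (a * u g) n = θ a (ρ g n)) (D : Simp X 1 → N)
    (hD : ∀ g σ, D (g • σ) = ρ g (D σ)) : Chain u X 1 →+ N :=
  QuotientAddGroup.lift _ (evAux θ D) (by
    intro c hc
    have : rel u X 1 ≤ (evAux θ D).ker := by
      rw [rel, AddSubgroup.closure_le]
      rintro c ⟨g, σ, a, rfl⟩
      rw [SetLike.mem_coe, AddMonoidHom.mem_ker, map_sub, evAux_single, evAux_single, hD, hθr,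
        sub_self]
    exact this hc)

/-- the value at a `0`-simplex -/
noncomputable def pt {X : Type} [TopologicalSpace X] (τ : Simp X 0) : X :=
  τ (stdSimplex.vertex 0)

lemma stdSimplex_zero_eq (t : stdSimplex ℝ (Fin (0 + 1))) : t = stdSimplex.vertex 0 := by
  ext i
  fin_cases i
  simp

lemma simp_zero_ext {τ τ' : Simp X 0} (h : pt τ = pt τ') : τ = τ' := by
  ext t
  rw [stdSimplex_zero_eq t]
  exact h

lemma pt_face (i : Fin 2) (σ : Simp X 1) :
    pt (face i σ) = σ (stdSimplex.vertex (i.succAbove 0)) := by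
  rw [pt, face]
  simp only [ContinuousMap.comp_apply, ContinuousMap.coe_mk]
  rw [stdSimplex.map_vertex]

/-- constant simplex -/
noncomputable def cst (x : X) : Simp X 0 := ContinuousMap.const _ x

theorem coboundary_of_vanishing [PathConnectedSpace X]
    (hfree : ∀ (g : G) (x : X), g • x = x → g = 1)
    (h0 : Subsingleton (Homol u X 0)) (h1 : Subsingleton (Homol u X 1))
    (θ : A →+ (N →+ N)) (ρ : G → (N →+ N)) (hθ1 : ∀ n, θ 1 n = n)
    (hθr : ∀ a g n, θ (a * u g) n = θ a (ρ g n)) (hθl : ∀ g a n, θ (u g * a) n = ρ g (θ a n))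
    (b : G → N) (hb : ∀ g h, b (g * h) = ρ g (b h) + b g) :
    ∃ w, ∀ g, b g = ρ g w - w := by
  classical
  -- the equivariant function
  have hF : ∃ F : X → N, ∀ g x, F (g • x) = ρ g (F x) + b g := by
    have hrep : ∀ x : X, ∃ g : G, g • (Quotient.out (Quotient.mk (MulAction.orbitRel G X) x)) = x := by
      intro x
      have h2 : (MulAction.orbitRel G X).r (Quotient.out (Quotient.mk (MulAction.orbitRel G X) x)) x :=
        Quotient.exact (Quotient.out_eq _)
      have h3 := (MulAction.orbitRel G X).symm h2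
      exact h3
    choose γ hγ using hrep
    refine ⟨fun x => b (γ x), fun g x => ?_⟩
    have h2 : Quotient.mk (MulAction.orbitRel G X) (g • x) = Quotient.mk (MulAction.orbitRel G X) x :=
      Quotient.sound (MulAction.mem_orbit x g)
    have h3 : γ (g • x) = g * γ x := by
      have h4 := hγ (g • x)
      rw [h2] at h4
      have h5 : ((g * γ x)⁻¹ * γ (g • x)) •
          (Quotient.out (Quotient.mk (MulAction.orbitRel G X) x)) =
          (Quotient.out (Quotient.mk (MulAction.orbitRel G X) x)) := by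
        rw [mul_smul, h4, inv_smul_eq_iff, mul_smul, hγ x]
      have h6 := hfree _ _ h5
      rwa [inv_mul_eq_one, eq_comm] at h6
    simp only
    rw [h3, hb]
  obtain ⟨F, hF⟩ := hF
  -- the cochain
  set D : Simp X 1 → N := fun σ => F (pt (face 0 σ)) - F (pt (face 1 σ)) with hDdef
  have hDequiv : ∀ g σ, D (g • σ) = ρ g (D σ) := by
    intro g σ
    have h2 : ∀ i, pt (face i (g • σ)) = g • pt (face i σ) := fun i => rfl
    simp only [hDdef, h2, hF, map_sub]
    abel
  set E := ev u θ ρ hθr D hDequiv with hE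
  have hEcls : ∀ σ a, E (cls 1 σ a) = θ a (D σ) := by
    intro σ a
    have : E (cls 1 σ a) = evAux θ D (Finsupp.single σ a) := rfl
    rw [this, evAux_single]
  -- evaluation vanishes on boundaries
  have hEb : ∀ c : Chain u X 2, E (bdry u X 1 c) = 0 := by
    intro c
    induction c using chain_induction with
    | h0 => simp
    | hadd c d hc hd => simp [hc, hd]
    | hcls σ a =>
      rw [bdry_cls, map_sum, Fin.sum_univ_three]
      simp only [map_zsmul, hEcls]
      have hv : ∀ (i : Fin 3) (j : Fin 2), pt (face j (face i σ)) =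
          σ (stdSimplex.vertex (i.succAbove (j.succAbove 0))) := by
        intro i j
        rw [pt_face]
        rw [face]
        simp only [ContinuousMap.comp_apply, ContinuousMap.coe_mk]
        rw [stdSimplex.map_vertex]
      have e1 : ((0 : Fin 3).succAbove ((0 : Fin 2).succAbove 0)) = 2 := by decide
      have e2 : ((0 : Fin 3).succAbove ((1 : Fin 2).succAbove 0)) = 1 := by decide
      have e3 : ((1 : Fin 3).succAbove ((0 : Fin 2).succAbove 0)) = 2 := by decide
      have e4 : ((1 : Fin 3).succAbove ((1 : Fin 2).succAbove 0)) = 0 := by decide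
      have e5 : ((2 : Fin 3).succAbove ((0 : Fin 2).succAbove 0)) = 1 := by decide
      have e6 : ((2 : Fin 3).succAbove ((1 : Fin 2).succAbove 0)) = 0 := by decide
      simp only [hDdef, hv, e1, e2, e3, e4, e5, e6, map_sub]
      simp
  -- evaluation and left multiplication by group elements
  have hEl : ∀ g (c : Chain u X 1), E (lmul 1 (u g) c) = ρ g (E c) := by
    intro g c
    induction c using chain_induction with
    | h0 => simp
    | hadd c d hc hd => simp [hc, hd]
    | hcls σ a => rw [lmul_cls, hEcls, hEcls, hθl]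
  -- choose a base point
  obtain ⟨x0⟩ : Nonempty X := inferInstance
  obtain ⟨e, he⟩ := mem_range_of_subsingleton h0
    (c := cls 0 (cst x0) (1 : A)) (AddSubgroup.mem_top _)
  refine ⟨E e - F x0, fun g => ?_⟩
  -- a path from `x0` to `g x0`
  obtain ⟨p⟩ := PathConnectedSpace.joined x0 (g • x0)
  set σ : Simp X 1 := ⟨fun t => p (stdSimplexHomeomorphUnitInterval t),
    p.continuous.comp stdSimplexHomeomorphUnitInterval.continuous⟩ with hσ
  have hσ0 : face 0 σ = g • cst x0 := by
    apply simp_zero_ext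
    rw [pt_face]
    have e1 : ((0 : Fin 2).succAbove 0) = (1 : Fin 2) := by decide
    rw [e1]
    have e2 : σ (stdSimplex.vertex 1) = p 1 := by
      rw [hσ]
      simp only [ContinuousMap.coe_mk]
      rw [stdSimplexHomeomorphUnitInterval_one]
    rw [e2, p.target]
    rfl
  have hσ1 : face 1 σ = cst x0 := by
    apply simp_zero_ext
    rw [pt_face]
    have e1 : ((1 : Fin 2).succAbove 0) = (0 : Fin 2) := by decide
    rw [e1]
    have e2 : σ (stdSimplex.vertex 0) = p 0 := by
      rw [hσ]
      simp only [ContinuousMap.coe_mk]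
      rw [stdSimplexHomeomorphUnitInterval_zero]
    rw [e2, p.source]
    rfl
  have hcyc : (cls 1 σ 1 - lmul 1 (u g) e + e : Chain u X 1) ∈ cycles u X 1 := by
    change _ ∈ (bdry u X 0).ker
    rw [AddMonoidHom.mem_ker, map_add, map_sub, bdry_lmul, he, lmul_cls, bdry_cls,
      Fin.sum_univ_two]
    have h3 : face (0 : Fin (0 + 2)) σ = g • cst x0 := hσ0
    have h4 : face (1 : Fin (0 + 2)) σ = cst x0 := hσ1
    rw [h3, h4, cls_smul]
    simp
  obtain ⟨c2, hc2⟩ := mem_range_of_subsingleton h1 hcyc
  have h5 := hEb c2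
  rw [hc2, map_add, map_sub, hEl, hEcls, hθ1] at h5
  have h6 : D σ = ρ g (F x0) + b g - F x0 := by
    have h7 : pt (g • cst x0 : Simp X 0) = g • x0 := rfl
    have h8 : pt (cst x0 : Simp X 0) = x0 := rfl
    simp only [hDdef]
    rw [hσ0, hσ1, h7, h8, hF]
  rw [h6] at h5
  rw [map_sub]
  have h9 : b g - (ρ g (E e) - ρ g (F x0) - (E e - F x0)) =
      ρ g (F x0) + b g - F x0 - ρ g (E e) + E e := by abel
  rw [← sub_eq_zero, h9]
  exact h5

end Evaluation

end Pool.Agent.H496R3.ZS
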