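import Pool.Agent.H496R3.ZS.Stmt

/-!
# The reduced group `C^*`-algebra, amenable groups
-/

namespace Pool.Agent.H496R3.ZS

open scoped Pointwise symmDiff

/-- The Hilbert space `ℓ²(Z)`. -/
abbrev Ell (Z : Type) : Type := lp (fun _ : Z => ℂ) 2

/-- The isometry `f ↦ f ∘ e` of `ℓ²(Z)` given by a bijection `e` of `Z`. -/
noncomputable def permIso {Z : Type} (e : Z ≃ Z) : Ell Z →ₗᵢ[ℂ] Ell Z where
  toFun := fun f => ⟨fun h => f (e h), by
    have h1 := (lp.memℓp f).summable (by norm_num)
    refine memℓp_gen ?_
    exact (e.summable_iff (f := fun h => ‖f h‖ ^ (2 : ENNReal).toReal)).2 h1⟩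
  map_add' := fun f g => by ext h; rfl
  map_smul' := fun c f => by ext h; rfl
  norm_map' := fun f => by
    have h1 : (0 : ℝ) < (2 : ENNReal).toReal := by norm_num
    rw [lp.norm_eq_tsum_rpow h1, lp.norm_eq_tsum_rpow h1]
    congr 1
    exact e.tsum_eq (fun h => ‖f h‖ ^ (2 : ENNReal).toReal)

/-- The unitary representation of `G` on `ℓ²(Z)` given by an action of `G` on a set `Z`:
`(g f)(z) = f(g⁻¹ z)`. For `Z = G` with left multiplication it is the left regular
representation. -/
noncomputable def permRep (G Z : Type) [Group G] [MulAction G Z] : G →* (Ell Z →L[ℂ] Ell Z) where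
  toFun g := (permIso (MulAction.toPerm (g⁻¹ : G) : Z ≃ Z)).toContinuousLinearMap
  map_one' := by
    ext f z
    change f ((1 : G)⁻¹ • z) = f z
    simp
  map_mul' g h := by
    ext f z
    change f ((g * h)⁻¹ • z) = f (h⁻¹ • (g⁻¹ • z))
    rw [mul_inv_rev, mul_smul]

/-- The reduced group `C^*`-algebra `C_r^*(G)`: the operator norm closure of the image of the
complex group ring `ℂ[G]` under the left regular representation on `ℓ²(G)`. -/
noncomputable def CrStar (G : Type) [Group G] : Subalgebra ℂ (Ell G →L[ℂ] Ell G) :=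
  (MonoidAlgebra.lift ℂ _ G (permRep G G)).range.topologicalClosure

/-- The canonical homomorphism from `G` to `C_r^*(G)`, `g ↦ λ_g`. -/
noncomputable def unitHom (G : Type) [Group G] : G →* CrStar G where
  toFun g := ⟨permRep G G g, Subalgebra.le_topologicalClosure _
    ⟨MonoidAlgebra.single g 1, by simp⟩⟩
  map_one' := by
    apply Subtype.ext
    simp
  map_mul' g h := by
    apply Subtype.ext
    simp

end Pool.Agent.H496R3.ZS
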