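import Pool.Agent.H496R3.ZS.Tree

/-!
# Corollaries: cosets of amenable subgroups, trees
-/

namespace Pool.Agent.H496R3.ZS

open scoped Pointwise symmDiff
open Filter Topology
open scoped Classical

noncomputable section

variable {G : Type} [Group G] {X : Type} [TopologicalSpace X] [PathConnectedSpace X]
  [MulAction G X] [ContinuousConstSMul G X]

lemma stabilizer_coset_amenable {C : Subgroup G} (hC : IsAmenable C) (q : G ⧸ C) :
    IsAmenable (MulAction.stabilizer G q) := by
  obtain ⟨g, rfl⟩ := QuotientGroup.mk_surjective q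
  have h1 : IsAmenable (MulAction.stabilizer G ((1 : G) : G ⧸ C)) := by
    rw [MulAction.stabilizer_quotient]
    exact hC
  have h2 : (QuotientGroup.mk g : G ⧸ C) = g • ((1 : G) : G ⧸ C) := by
    change (QuotientGroup.mk g : G ⧸ C) = QuotientGroup.mk (g * 1)
    rw [mul_one]
  exact h1.of_equiv (MulAction.stabilizerEquivStabilizer h2)

theorem coset_case (hfree : ∀ (g : G) (x : X), g • x = x → g = 1) (C : Subgroup G)
    (hC : IsAmenable C) (Y : Set (G ⧸ C)) (hY1 : Y.Infinite) (hY2 : Yᶜ.Infinite)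
    (hY : ∀ g : G, ((g • Y) ∆ Y).Finite) :
    ∃ i ≤ 1, Nontrivial (Homol (regHom G) X i) := by
  refine main (Z := G ⧸ C) hfree (stabilizer_coset_amenable hC) Y hY fun Y' hY' hfin => ?_
  by_cases h : ∃ q, q ∈ Y'
  · obtain ⟨q, hq⟩ := h
    have huniv : Y' = Set.univ := by
      ext r
      simp only [Set.mem_univ, iff_true]
      obtain ⟨g, rfl⟩ := MulAction.exists_smul_eq G q r
      rw [← hY' g]
      exact Set.smul_mem_smul_set hq
    apply hY2
    refine hfin.subset fun z hz => ?_
    rw [huniv, Set.mem_symmDiff]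
    exact Or.inr ⟨Set.mem_univ _, hz⟩
  · apply hY1
    refine hfin.subset fun z hz => ?_
    rw [Set.mem_symmDiff]
    exact Or.inl ⟨hz, fun h' => h ⟨z, h'⟩⟩

theorem tree_case (hfree : ∀ (g : G) (x : X), g • x = x → g = 1) (V : Type) [MulAction G V]
    (T : SimpleGraph V) (hT : T.IsTree) (hadj : ∀ (g : G) (v w : V), T.Adj v w →
      T.Adj (g • v) (g • w))
    (hst : ∀ v w : V, T.Adj v w →
      IsAmenable ((MulAction.stabilizer G v ⊓ MulAction.stabilizer G w : Subgroup G)))
    (x0 : V) (hunb : ∀ N : ℕ, ∃ g : G, N ≤ T.dist x0 (g • x0)) :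
    ∃ i ≤ 1, Nontrivial (Homol (regHom G) X i) := by
  let _ : MulAction G (OEdge T) :=
    { smul := fun g e => ⟨(g • e.1.1, g • e.1.2), hadj g _ _ e.2⟩
      one_smul := fun e => Subtype.ext (Prod.ext (one_smul G e.1.1) (one_smul G e.1.2))
      mul_smul := fun g h e => Subtype.ext (Prod.ext (mul_smul g h e.1.1) (mul_smul g h e.1.2)) }
  have hsm : ∀ (g : G) (e : OEdge T), g • e = ⟨(g • e.1.1, g • e.1.2), hadj g _ _ e.2⟩ :=
    fun g e => rfl
  -- invariance of the distance
  have hle : ∀ (g : G) (v w : V), T.dist (g • v) (g • w) ≤ T.dist v w := by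
    intro g v w
    obtain ⟨p, hp⟩ := hT.connected.exists_walk_length_eq_dist v w
    let f : T →g T := ⟨fun v => g • v, fun {a b} h => hadj g a b h⟩
    have h1 := SimpleGraph.dist_le (p.map f)
    rw [SimpleGraph.Walk.length_map, hp] at h1
    exact h1
  have hdist : ∀ (g : G) (v w : V), T.dist (g • v) (g • w) = T.dist v w := by
    intro g v w
    refine le_antisymm (hle g v w) ?_
    have h1 := hle g⁻¹ (g • v) (g • w)
    rwa [inv_smul_smul, inv_smul_smul] at h1
  have htow : ∀ (g : G) (x : V), g • toward T x = toward T (g • x) := by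
    intro g x
    ext e
    rw [Set.mem_smul_set_iff_inv_smul_mem]
    change T.dist x (g⁻¹ • e.1.2) < T.dist x (g⁻¹ • e.1.1) ↔
      T.dist (g • x) e.1.2 < T.dist (g • x) e.1.1
    rw [← hdist g x (g⁻¹ • e.1.2), ← hdist g x (g⁻¹ • e.1.1), smul_inv_smul, smul_inv_smul]
  have hstab : ∀ e : OEdge T, IsAmenable (MulAction.stabilizer G e) := by
    rintro ⟨⟨v, w⟩, hvw⟩
    have h1 := hst v w hvw
    have h2 : (MulAction.stabilizer G v ⊓ MulAction.stabilizer G w : Subgroup G) =
        MulAction.stabilizer G (⟨(v, w), hvw⟩ : OEdge T) := by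
      ext g
      rw [Subgroup.mem_inf, MulAction.mem_stabilizer_iff, MulAction.mem_stabilizer_iff,
        MulAction.mem_stabilizer_iff, hsm, Subtype.ext_iff, Prod.ext_iff]
    rw [← h2]
    exact h1
  refine main (Z := OEdge T) hfree hstab (toward T x0) (fun g => ?_) fun Y' hY' hfin => ?_
  · rw [htow]
    exact toward_finite hT _ _
  · obtain ⟨g, hg⟩ := hunb (2 * (toward T x0 ∆ Y').ncard + 1)
    have h1 := toward_card hT x0 (g • x0)
    have h2 : toward T (g • x0) ∆ Y' = g • (toward T x0 ∆ Y') := by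
      rw [Set.smul_set_symmDiff, htow, hY']
    have h3 : (toward T (g • x0) ∆ Y').ncard = (toward T x0 ∆ Y').ncard := by
      rw [h2, Set.ncard_smul_set]
    have h4 : (toward T x0 ∆ toward T (g • x0)).ncard ≤
        (toward T x0 ∆ Y').ncard + (toward T (g • x0) ∆ Y').ncard := by
      have h5 : toward T x0 ∆ toward T (g • x0) ⊆
          (toward T x0 ∆ Y') ∪ (toward T (g • x0) ∆ Y') := by
        rw [symmDiff_comm (toward T (g • x0)) Y']
        exact symmDiff_triangle _ _ _
      refine (Set.ncard_le_ncard h5 (hfin.union ?_)).trans (Set.ncard_union_le _ _)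
      rw [h2]
      exact hfin.smul_set
    omega

end

end Pool.Agent.H496R3.ZS
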