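import Pool.Agent.H496R3.ZS.Norm
import Pool.Agent.H496R3.ZS.Chains

/-!
# Extension of the representation to the reduced `C^*`-algebra and the main theorem
-/

namespace Pool.Agent.H496R3.ZS

open scoped Pointwise symmDiff InnerProductSpace
open Filter Topology
open scoped Classical

noncomputable section

variable {G : Type} [Group G] {Z : Type} [MulAction G Z]

/-- the pair of integrated forms -/
def pairHom (G Z : Type) [Group G] [MulAction G Z] :
    MonoidAlgebra ℂ G →ₐ[ℂ] (Ell G →L[ℂ] Ell G) × (Ell Z →L[ℂ] Ell Z) :=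
  (integ G G).prod (integ G Z)

/-- the closure of the graph -/
def Gam (G Z : Type) [Group G] [MulAction G Z] :
    Subalgebra ℂ ((Ell G →L[ℂ] Ell G) × (Ell Z →L[ℂ] Ell Z)) :=
  (pairHom G Z).range.topologicalClosure

lemma Gam_norm (hZ : ∀ z : Z, IsAmenable (MulAction.stabilizer G z))
    {p : (Ell G →L[ℂ] Ell G) × (Ell Z →L[ℂ] Ell Z)} (hp : p ∈ Gam G Z) : ‖p.2‖ ≤ ‖p.1‖ := by
  have hcl : IsClosed {p : (Ell G →L[ℂ] Ell G) × (Ell Z →L[ℂ] Ell Z) | ‖p.2‖ ≤ ‖p.1‖} :=
    isClosed_le (by fun_prop) (by fun_prop)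
  have h1 : (Gam G Z : Set ((Ell G →L[ℂ] Ell G) × (Ell Z →L[ℂ] Ell Z))) ⊆
      {p : (Ell G →L[ℂ] Ell G) × (Ell Z →L[ℂ] Ell Z) | ‖p.2‖ ≤ ‖p.1‖} := by
    rw [Gam, Subalgebra.topologicalClosure_coe]
    refine closure_minimal ?_ hcl
    rintro _ ⟨x, rfl⟩
    exact norm_integ_le hZ x
  exact h1 hp

lemma Gam_unique (hZ : ∀ z : Z, IsAmenable (MulAction.stabilizer G z))
    {a : Ell G →L[ℂ] Ell G} {b b' : Ell Z →L[ℂ] Ell Z} (h : (a, b) ∈ Gam G Z)
    (h' : (a, b') ∈ Gam G Z) : b = b' := by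
  have h1 := Gam_norm hZ ((Gam G Z).sub_mem h h')
  simp only [Prod.mk_sub_mk, sub_self, norm_zero] at h1
  exact sub_eq_zero.1 (norm_le_zero_iff.1 h1)

lemma Gam_exists (hZ : ∀ z : Z, IsAmenable (MulAction.stabilizer G z))
    (a : CrStar G) : ∃ b, ((a : Ell G →L[ℂ] Ell G), b) ∈ Gam G Z := by
  have ha : (a : Ell G →L[ℂ] Ell G) ∈ closure ((integ G G).range : Set (Ell G →L[ℂ] Ell G)) := by
    have h : (a : Ell G →L[ℂ] Ell G) ∈
      ((integ G G).range.topologicalClosure : Set (Ell G →L[ℂ] Ell G)) := a.2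
    rw [Subalgebra.topologicalClosure_coe] at h
    exact h
  obtain ⟨s, hs, hlim⟩ := mem_closure_iff_seq_limit.1 ha
  choose x hx using hs
  have hcauchy : CauchySeq (fun n => integ G Z (x n)) := by
    have h1 : CauchySeq s := hlim.cauchySeq
    rw [Metric.cauchySeq_iff] at h1 ⊢
    intro ε hε
    obtain ⟨N, hN⟩ := h1 ε hε
    refine ⟨N, fun m hm n hn => ?_⟩
    have h2 := hN m hm n hn
    rw [dist_eq_norm] at h2 ⊢
    refine lt_of_le_of_lt ?_ h2
    rw [← map_sub, ← hx, ← hx]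
    have h3 : (integ G G).toRingHom (x m) - (integ G G).toRingHom (x n) =
      integ G G (x m - x n) := (map_sub (integ G G) _ _).symm
    have h4 := norm_integ_le hZ (x m - x n)
    rw [← h3] at h4
    exact h4
  obtain ⟨b, hb⟩ := cauchySeq_tendsto_of_complete hcauchy
  refine ⟨b, ?_⟩
  rw [← SetLike.mem_coe, Gam, Subalgebra.topologicalClosure_coe]
  refine mem_closure_of_tendsto (hlim.prodMk_nhds hb) (Eventually.of_forall fun n => ?_)
  refine ⟨x n, ?_⟩
  have : s n = integ G G (x n) := (hx n).symm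
  rw [this]
  rfl

lemma Gam_group (g : G) : (permRep G G g, permRep G Z g) ∈ Gam G Z := by
  refine Subalgebra.le_topologicalClosure _ ⟨MonoidAlgebra.single g 1, ?_⟩
  exact Prod.ext (integ_single g) (integ_single g)

/-- the extension of the representation -/
theorem exists_extension (hZ : ∀ z : Z, IsAmenable (MulAction.stabilizer G z)) :
    ∃ θ : CrStar G →+ (Ell Z →+ Ell Z),
      (∀ n, θ 1 n = n) ∧ (∀ a g n, θ (a * unitHom G g) n = θ a (permRep G Z g n)) ∧
      (∀ g a n, θ (unitHom G g * a) n = permRep G Z g (θ a n)) := by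
  choose t ht using Gam_exists (G := G) (Z := Z) hZ
  have hadd : ∀ a b, t (a + b) = t a + t b := by
    intro a b
    refine Gam_unique hZ (ht (a + b)) ?_
    exact (Gam G Z).add_mem (ht a) (ht b)
  have hmul : ∀ a b, t (a * b) = t a * t b := by
    intro a b
    refine Gam_unique hZ (ht (a * b)) ?_
    exact (Gam G Z).mul_mem (ht a) (ht b)
  have hone : t 1 = 1 := Gam_unique hZ (ht 1) (Gam G Z).one_mem
  have hg : ∀ g, t (unitHom G g) = permRep G Z g := fun g =>
    Gam_unique hZ (ht (unitHom G g)) (Gam_group g)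
  refine ⟨AddMonoidHom.mk' (fun a => (t a : Ell Z →L[ℂ] Ell Z).toLinearMap.toAddMonoidHom) ?_,
    ?_, ?_, ?_⟩
  · intro a b
    ext1 n
    change t (a + b) n = t a n + t b n
    rw [hadd]
    rfl
  · intro n
    change t 1 n = n
    rw [hone]
    rfl
  · intro a g n
    change t (a * unitHom G g) n = t a (permRep G Z g n)
    rw [hmul, hg]
    rfl
  · intro g a n
    change t (unitHom G g * a) n = permRep G Z g (t a n)
    rw [hmul, hg]
    rfl

/-- the cocycle of a commensurated set -/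
lemma exists_cocycle (Y : Set Z) (hY : ∀ g : G, ((g • Y) ∆ Y).Finite) :
    ∃ b : G → Ell Z, ∀ g z, b g z = (if z ∈ g • Y then 1 else 0) - (if z ∈ Y then 1 else 0) := by
  have h : ∀ g : G, Memℓp (fun z : Z => ((if z ∈ g • Y then (1 : ℂ) else 0) -
      (if z ∈ Y then 1 else 0))) 2 := by
    intro g
    refine memℓp_gen (summable_of_hasFiniteSupport ((hY g).subset fun z hz => ?_))
    rw [Function.mem_support] at hz
    rw [Set.mem_symmDiff]
    by_contra hcon
    apply hz
    by_cases h1 : z ∈ g • Y <;> by_cases h2 : z ∈ Y <;> simp [h1, h2] at hcon ⊢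
  exact ⟨fun g => ⟨_, h g⟩, fun g z => rfl⟩

/-- square summable functions are small outside a finite set -/
lemma finite_large (w : Ell Z) {δ : ℝ} (hδ : 0 < δ) : {z | δ ≤ ‖w z‖}.Finite := by
  have h1 := (lp.memℓp w).summable (by norm_num)
  have h2 := h1.tendsto_cofinite_zero
  have h3 : ∀ᶠ z in cofinite, ‖w z‖ ^ (2 : ENNReal).toReal < δ ^ (2 : ENNReal).toReal :=
    h2.eventually (gt_mem_nhds (by positivity))
  have h4 := eventually_cofinite.1 h3
  refine h4.subset ?_
  intro z hz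
  rw [Set.mem_ofPred_eq] at hz ⊢
  rw [not_lt]
  exact Real.rpow_le_rpow hδ.le hz (by norm_num)

end

end Pool.Agent.H496R3.ZS
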