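import Pool.Agent.H496R3.ZS.Transfer

/-!
# The main theorem
-/

namespace Pool.Agent.H496R3.ZS

open scoped Pointwise symmDiff InnerProductSpace
open Filter Topology
open scoped Classical

noncomputable section

variable {G : Type} [Group G] {Z : Type} [MulAction G Z]

theorem main {X : Type} [TopologicalSpace X] [PathConnectedSpace X] [MulAction G X]
    [ContinuousConstSMul G X] (hfree : ∀ (g : G) (x : X), g • x = x → g = 1)
    (hZ : ∀ z : Z, IsAmenable (MulAction.stabilizer G z))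
    (Y : Set Z) (hY : ∀ g : G, ((g • Y) ∆ Y).Finite)
    (hnt : ∀ Y' : Set Z, (∀ g : G, g • Y' = Y') → ¬ (Y ∆ Y').Finite) :
    ∃ i ≤ 1, Nontrivial (Homol (regHom G) X i) := by
  by_contra hcon
  have h0 : Subsingleton (Homol (regHom G) X 0) :=
    not_nontrivial_iff_subsingleton.1 fun h => hcon ⟨0, by norm_num, h⟩
  have h1 : Subsingleton (Homol (regHom G) X 1) :=
    not_nontrivial_iff_subsingleton.1 fun h => hcon ⟨1, le_rfl, h⟩
  obtain ⟨θ, hθ1, hθr, hθl⟩ := exists_extension' hZ
  obtain ⟨b, hb⟩ := exists_cocycle Y hY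
  have hbc : ∀ g h, b (g * h) = permRep G Z g (b h) + b g := by
    intro g h
    ext z
    rw [lp.coeFn_add, Pi.add_apply, permRep_apply, hb, hb, hb]
    have e1 : z ∈ (g * h) • Y ↔ g⁻¹ • z ∈ h • Y := by
      rw [mul_smul, Set.mem_smul_set_iff_inv_smul_mem]
    have e2 : g⁻¹ • z ∈ Y ↔ z ∈ g • Y := by
      rw [Set.mem_smul_set_iff_inv_smul_mem]
    simp only [e1, e2]
    ring
  obtain ⟨w, hw⟩ := coboundary_of_vanishing hfree h0 h1 θ
    (fun g => (permRep G Z g).toLinearMap.toAddMonoidHom) hθ1 hθr hθl b hbc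
  have hw' : ∀ (g : G) (z : Z), (if z ∈ g • Y then (1 : ℂ) else 0) - (if z ∈ Y then 1 else 0) =
      w (g⁻¹ • z) - w z := by
    intro g z
    rw [← hb, hw]
    rfl
  set f : Z → ℂ := fun z => (if z ∈ Y then (1 : ℂ) else 0) - w z with hf
  have hinv : ∀ (g : G) z, f (g⁻¹ • z) = f z := by
    intro g z
    have h2 := hw' g z
    have e2 : g⁻¹ • z ∈ Y ↔ z ∈ g • Y := by
      rw [Set.mem_smul_set_iff_inv_smul_mem]
    simp only [hf, e2]
    linear_combination h2
  refine hnt {z | 1 / 2 < (f z).re} (fun g => ?_) ?_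
  · ext z
    rw [Set.mem_smul_set_iff_inv_smul_mem, Set.mem_ofPred_eq, Set.mem_ofPred_eq, hinv]
  · refine (finite_large w (δ := 1 / 2) (by norm_num)).subset fun z hz => ?_
    rw [Set.mem_symmDiff] at hz
    rw [Set.mem_ofPred_eq]
    rcases hz with ⟨h2, h3⟩ | ⟨h2, h3⟩
    · rw [Set.mem_ofPred_eq, not_lt] at h3
      simp only [hf, if_pos h2, Complex.sub_re, Complex.one_re] at h3
      refine le_trans ?_ (Complex.re_le_norm _)
      linarith
    · rw [Set.mem_ofPred_eq] at h2
      simp only [hf, if_neg h3, Complex.sub_re, Complex.zero_re] at h2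
      rw [← norm_neg]
      refine le_trans ?_ (Complex.re_le_norm _)
      rw [Complex.neg_re]
      linarith

end

end Pool.Agent.H496R3.ZS
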