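import Pool.Agent.H496R3.ZS.Main

/-!
# Transfer to the algebra of the statement
-/

namespace Pool.Agent.H496R3.ZS

variable {G : Type} [Group G]

/-- identification -/
def Bdd.toL : Bdd G →ₐ[ℂ] (Ell G →L[ℂ] Ell G) where
  toFun a := a
  map_one' := rfl
  map_mul' _ _ := rfl
  map_zero' := rfl
  map_add' _ _ := rfl
  commutes' _ := rfl

omit [Group G] in
lemma Bdd.toL_continuous : Continuous (Bdd.toL : Bdd G → (Ell G →L[ℂ] Ell G)) :=
  continuous_id (X := Ell G →L[ℂ] Ell G)

lemma Bdd.toL_regRep (g : G) : Bdd.toL (regRep G g) = permRep G G g := rfl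

lemma Bdd.toL_lift (x : MonoidAlgebra ℂ G) :
    Bdd.toL (MonoidAlgebra.lift ℂ _ G (regRep G) x) = integ G G x := by
  have h : (Bdd.toL.comp (MonoidAlgebra.lift ℂ _ G (regRep G)) :
      MonoidAlgebra ℂ G →ₐ[ℂ] (Ell G →L[ℂ] Ell G)) = integ G G := by
    refine MonoidAlgebra.algHom_ext (fun g => ?_) (Subsingleton.elim _ _)
    rw [AlgHom.comp_apply, MonoidAlgebra.lift_single, one_smul, integ_single, Bdd.toL_regRep]
  exact DFunLike.congr_fun h x

set_option backward.isDefEq.respectTransparency false in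
lemma toL_mem (a : RedCStar G) : Bdd.toL (Subtype.val a : Bdd G) ∈ CrStar G := by
  have ha : (Subtype.val a : Bdd G) ∈
      ((MonoidAlgebra.lift ℂ _ G (regRep G)).range.topologicalClosure : Set (Bdd G)) :=
    Subtype.property a
  rw [Subalgebra.topologicalClosure_coe] at ha
  have h1 : Bdd.toL (Subtype.val a : Bdd G) ∈
      closure ((integ G G).range : Set (Ell G →L[ℂ] Ell G)) := by
    refine map_mem_closure Bdd.toL_continuous ha ?_
    rintro _ ⟨x, rfl⟩
    exact ⟨x, (Bdd.toL_lift x).symm⟩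
  have h2 : Bdd.toL (Subtype.val a : Bdd G) ∈
      ((integ G G).range.topologicalClosure : Set (Ell G →L[ℂ] Ell G)) := by
    rw [Subalgebra.topologicalClosure_coe]
    exact h1
  exact h2

/-- identification of the two models of `C_r^*(G)` -/
noncomputable def toCr (G : Type) [Group G] : RedCStar G →+* CrStar G where
  toFun a := ⟨Bdd.toL (Subtype.val a : Bdd G), toL_mem a⟩
  map_one' := Subtype.ext rfl
  map_mul' _ _ := Subtype.ext rfl
  map_zero' := Subtype.ext rfl
  map_add' _ _ := Subtype.ext rfl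

lemma toCr_regHom (g : G) : toCr G (regHom G g) = unitHom G g := Subtype.ext rfl

theorem exists_extension' {Z : Type} [MulAction G Z]
    (hZ : ∀ z : Z, IsAmenable (MulAction.stabilizer G z)) :
    ∃ θ : RedCStar G →+ (Ell Z →+ Ell Z),
      (∀ n, θ 1 n = n) ∧ (∀ a g n, θ (a * regHom G g) n = θ a (permRep G Z g n)) ∧
      (∀ g a n, θ (regHom G g * a) n = permRep G Z g (θ a n)) := by
  obtain ⟨θ, h1, h2, h3⟩ := exists_extension (G := G) (Z := Z) hZ
  refine ⟨θ.comp (toCr G).toAddMonoidHom, fun n => ?_, fun a g n => ?_, fun g a n => ?_⟩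
  · change θ (toCr G 1) n = n
    rw [map_one, h1]
  · change θ (toCr G (a * regHom G g)) n = θ (toCr G a) (permRep G Z g n)
    rw [map_mul, toCr_regHom, h2]
  · change θ (toCr G (regHom G g * a)) n = permRep G Z g (θ (toCr G a) n)
    rw [map_mul, toCr_regHom, h3]

end Pool.Agent.H496R3.ZS
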