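import Pool.Agent.H496R3.ZS.MainThm

/-!
# Trees, cosets
-/

namespace Pool.Agent.H496R3.ZS

open scoped Pointwise symmDiff
open Filter Topology
open scoped Classical

noncomputable section

section amen

lemma IsAmenable.of_equiv {H K : Type} [Group H] [Group K] (e : H ≃* K) (h : IsAmenable H) :
    IsAmenable K := by
  intro S ε hε
  obtain ⟨F, hF, hFS⟩ := h (S.image e.symm) ε hε
  refine ⟨F.image e, hF.image _, fun s hs => ?_⟩
  have h1 := hFS (e.symm s) (Finset.mem_image_of_mem _ hs)
  have h2 : (s • ((F.image e : Finset K) : Set K)) ∆ ((F.image e : Finset K) : Set K) =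
      e '' ((e.symm s • (F : Set H)) ∆ (F : Set H)) := by
    rw [Set.image_symmDiff e.injective, Finset.coe_image]
    congr 1
    ext k
    simp only [Set.mem_smul_set, Set.mem_image, smul_eq_mul]
    constructor
    · rintro ⟨_, ⟨f, hf, rfl⟩, rfl⟩
      exact ⟨e.symm s * f, ⟨f, hf, rfl⟩, by simp⟩
    · rintro ⟨_, ⟨f, hf, rfl⟩, rfl⟩
      exact ⟨e f, ⟨f, hf, rfl⟩, by simp⟩
  rw [h2, Set.ncard_image_of_injective _ e.injective,
    Finset.card_image_of_injective _ e.injective]
  exact h1

end amen

section tree

variable {V : Type} {T : SimpleGraph V}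

/-- crossing an edge changes the direction of that edge only -/
lemma tree_edge (hT : T.IsTree) {x x' v w : V} (hx : T.Adj x x') (hv : T.Adj v w)
    (h1 : T.dist x w < T.dist x v) (h2 : ¬ T.dist x' w < T.dist x' v) : v = x' ∧ w = x := by
  have ha : T.dist x v = T.dist x w + 1 := by
    rcases hT.dist_eq_dist_add_one_of_adj x hv with h | h <;> omega
  have hb : T.dist x' w = T.dist x' v + 1 := by
    rcases hT.dist_eq_dist_add_one_of_adj x' hv with h | h <;> omega
  obtain ⟨P, hP, hPl⟩ := hT.connected.exists_path_of_dist x w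
  obtain ⟨Q, hQ, hQl⟩ := hT.connected.exists_path_of_dist v x'
  have hdisj : ∀ y, y ∈ P.support → y ∈ Q.support → False := by
    intro y hyP hyQ
    have e1 := congrArg SimpleGraph.Walk.length (P.take_spec hyP)
    have e2 := congrArg SimpleGraph.Walk.length (Q.take_spec hyQ)
    rw [SimpleGraph.Walk.length_append] at e1 e2
    have f1 := SimpleGraph.dist_le (P.takeUntil y hyP)
    have f2 := SimpleGraph.dist_le (P.dropUntil y hyP)
    have f3 := SimpleGraph.dist_le (Q.takeUntil y hyQ)
    have f4 := SimpleGraph.dist_le (Q.dropUntil y hyQ)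
    have g1 := hT.connected.dist_triangle (u := x) (v := y) (w := v)
    have g2 := hT.connected.dist_triangle (u := x') (v := y) (w := w)
    rw [SimpleGraph.dist_comm (u := v) (v := x')] at hQl
    rw [SimpleGraph.dist_comm (u := y) (v := x')] at f4
    rw [SimpleGraph.dist_comm (u := y) (v := v)] at g1
    omega
  have hR : (P.append (SimpleGraph.Walk.cons hv.symm Q)).IsPath := by
    rw [SimpleGraph.Walk.isPath_def, SimpleGraph.Walk.support_append,
      SimpleGraph.Walk.support_cons, List.tail_cons, List.nodup_append']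
    refine ⟨hP.support_nodup, hQ.support_nodup, ?_⟩
    intro y hyP hyQ
    exact hdisj y hyP hyQ
  have hE : (SimpleGraph.Walk.cons hx SimpleGraph.Walk.nil : T.Walk x x').IsPath := by
    rw [SimpleGraph.Walk.isPath_def]
    simp [hx.ne]
  have h3 := (hT.isAcyclic.subsingleton_path x x').elim ⟨_, hR⟩ ⟨_, hE⟩
  have h4 := congrArg (fun p : T.Path x x' => (p : T.Walk x x').length) h3
  simp only [SimpleGraph.Walk.length_append, SimpleGraph.Walk.length_cons,
    SimpleGraph.Walk.length_nil] at h4
  have h5 : T.dist x w = 0 := by omega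
  have h6 : T.dist v x' = 0 := by omega
  exact ⟨hT.connected.dist_eq_zero_iff.1 h6, (hT.connected.dist_eq_zero_iff.1 h5).symm⟩

/-- oriented edges -/
abbrev OEdge (T : SimpleGraph V) : Type := {p : V × V // T.Adj p.1 p.2}

/-- oriented edges pointing to `x` -/
def toward (T : SimpleGraph V) (x : V) : Set (OEdge T) :=
  {e | T.dist x e.1.2 < T.dist x e.1.1}

lemma toward_adj (hT : T.IsTree) {x x' : V} (hx : T.Adj x x') :
    (toward T x ∆ toward T x').Finite := by
  have h : toward T x ∆ toward T x' ⊆ {⟨(x', x), hx.symm⟩, ⟨(x, x'), hx⟩} := by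
    rintro ⟨⟨v, w⟩, hv⟩ he
    rw [Set.mem_symmDiff] at he
    rcases he with ⟨h1, h2⟩ | ⟨h1, h2⟩
    · left
      obtain ⟨rfl, rfl⟩ := tree_edge hT hx hv h1 h2
      rfl
    · right
      obtain ⟨rfl, rfl⟩ := tree_edge hT hx.symm hv h1 h2
      rfl
  exact (Set.toFinite _).subset h

lemma toward_finite (hT : T.IsTree) (x x' : V) : (toward T x ∆ toward T x').Finite := by
  obtain ⟨p⟩ := hT.connected.preconnected x x'
  induction p with
  | nil => simp
  | cons h p ih =>
    refine ((toward_adj hT h).union ih).subset ?_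
    exact symmDiff_triangle _ _ _

lemma toward_card (hT : T.IsTree) (x x' : V) :
    T.dist x x' ≤ (toward T x ∆ toward T x').ncard := by
  obtain ⟨p, hp⟩ := hT.connected.exists_walk_length_eq_dist x x'
  have hd : ∀ i ≤ p.length, T.dist x (p.getVert i) = i ∧ T.dist x' (p.getVert i) = p.length - i := by
    intro i hi
    have h1 := SimpleGraph.dist_le (p.take i)
    have h2 := SimpleGraph.dist_le (p.drop i)
    rw [SimpleGraph.Walk.take_length] at h1
    rw [SimpleGraph.Walk.drop_length, SimpleGraph.dist_comm] at h2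
    have h3 := hT.connected.dist_triangle (u := x) (v := p.getVert i) (w := x')
    rw [SimpleGraph.dist_comm (u := p.getVert i) (v := x')] at h3
    omega
  have hadj : ∀ i, i < p.length → T.Adj (p.getVert i) (p.getVert (i + 1)) := fun i hi =>
    p.adj_getVert_succ hi
  let φ : Fin p.length → OEdge T := fun i => ⟨(p.getVert i, p.getVert (i + 1)), hadj i i.2⟩
  have hφinj : Function.Injective φ := by
    intro i j hij
    have h1 : p.getVert i = p.getVert j := congrArg (fun e : OEdge T => e.1.1) hij
    have h2 := (hd i i.2.le).1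
    rw [h1, (hd j j.2.le).1] at h2
    exact Fin.ext h2.symm
  have hsub : Set.range φ ⊆ toward T x ∆ toward T x' := by
    rintro _ ⟨i, rfl⟩
    rw [Set.mem_symmDiff]
    right
    have h1 := hd i i.2.le
    have h2 := hd (i + 1) i.2
    have h3 := i.2
    constructor
    · change T.dist x' (p.getVert (i + 1)) < T.dist x' (p.getVert i)
      omega
    · change ¬ T.dist x (p.getVert (i + 1)) < T.dist x (p.getVert i)
      omega
  have h4 := Set.ncard_le_ncard hsub (toward_finite hT x x')
  rw [← hp]
  refine le_trans ?_ h4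
  rw [← Set.image_univ, Set.ncard_image_of_injective _ hφinj, Set.ncard_univ, Nat.card_fin]

end tree

end

end Pool.Agent.H496R3.ZS
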